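import Pool.Agent.Lib.MP_e616d8_an.H17Real

namespace Pool.Agent.Results.MP_e616d8_an.BothFields

section

variable {K : Type} [RCLike K] {B : Type} [NormedAddCommGroup B] [NormedSpace K B]

/-- The projective orbit of `x`, as a subset of the space with its weak topology. -/
def projOrbit (T : B →L[K] B) (x : B) : Set (WeakSpace K B) :=
  {y | ∃ (c : K) (n : ℕ), y = toWeakSpace K B (c • (T ^ n) x)}

/-- Some projective orbit is weakly sequentially dense. -/
def WeakSeqSupercyclic (T : B →L[K] B) : Prop :=
  ∃ x : B, ∀ C : Set (WeakSpace K B), IsSeqClosed C → projOrbit T x ⊆ C → C = Set.univ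

/-- Some projective orbit is weakly `1`-sequentially dense. -/
def WeakOneSeqSupercyclic (T : B →L[K] B) : Prop :=
  ∃ x : B, seqClosure (projOrbit T x) = Set.univ

end

/-- Some bounded operator on a Hilbert space over `K` is weakly sequentially supercyclic but not
weakly `1`-sequentially supercyclic. -/
def HasExample (K : Type) [RCLike K] : Prop :=
  ∃ (B : Type) (_ : NormedAddCommGroup B) (_ : InnerProductSpace K B) (_ : CompleteSpace B)
    (T : B →L[K] B), WeakSeqSupercyclic T ∧ ¬ WeakOneSeqSupercyclic T

theorem result : HasExample ℝ ∧ HasExample ℂ := by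
  constructor
  · obtain ⟨T, h1, h2⟩ := Pool.Agent.Lib.MP_e616d8_an.main_real
    exact ⟨_, inferInstance, inferInstance, inferInstance, T, h1, fun ⟨x, hx⟩ => h2 x hx⟩
  · obtain ⟨T, h1, h2⟩ := Pool.Agent.Lib.MP_e616d8_an.main
    exact ⟨_, inferInstance, inferInstance, inferInstance, T, h1, fun ⟨x, hx⟩ => h2 x hx⟩

end Pool.Agent.Results.MP_e616d8_an.BothFields
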